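import Pool.Agent.QSX.StmtsG

/-!
QSX, row NRM: the Euclidean operator norm of matrices.
-/

namespace Pool.Agent.QSX.H80

open Matrix Finset Pool.Agent.QSX

theorem cj_apply {m : ℕ} (A : Matrix (Fin m) (Fin m) ℝ) (v : EuclideanSpace ℝ (Fin m)) (i : Fin m) :
    (Matrix.toEuclideanCLM (n := Fin m) (𝕜 := ℝ) A v) i = ∑ j, A i j * v j := by
  have := congrFun (Matrix.ofLp_toEuclideanCLM (n := Fin m) (𝕜 := ℝ) A v) i
  rw [this]
  rfl

theorem norm_le_sum {m : ℕ} (w : EuclideanSpace ℝ (Fin m)) : ‖w‖ ≤ ∑ i, |w i| := by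
  rw [EuclideanSpace.norm_eq]
  apply Real.sqrt_le_iff.2
  refine ⟨Finset.sum_nonneg fun i _ => abs_nonneg _, ?_⟩
  have h1 : ∀ i, ‖w i‖ ^ 2 = |w i| * |w i| := fun i => by rw [Real.norm_eq_abs, sq]
  rw [sq, Finset.sum_mul]
  apply Finset.sum_le_sum
  intro i _
  rw [h1]
  apply mul_le_mul_of_nonneg_left _ (abs_nonneg _)
  exact Finset.single_le_sum (f := fun i => |w i|) (fun i _ => abs_nonneg _) (Finset.mem_univ i)

theorem nrm_stmt : NrmStmt := by
  intro m
  refine ⟨?_, ?_, ?_, ?_⟩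
  · intro A i j
    have h1 := (Matrix.toEuclideanCLM (n := Fin m) (𝕜 := ℝ) A).le_opNorm (EuclideanSpace.single j 1)
    have h2 : (Matrix.toEuclideanCLM (n := Fin m) (𝕜 := ℝ) A (EuclideanSpace.single j 1)) i = A i j := by
      rw [cj_apply]
      simp
    have h3 := PiLp.norm_apply_le (Matrix.toEuclideanCLM (n := Fin m) (𝕜 := ℝ) A
      (EuclideanSpace.single j 1)) i
    rw [h2, Real.norm_eq_abs] at h3
    rw [EuclideanSpace.norm_single, norm_one, mul_one] at h1
    exact h3.trans h1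
  · intro A
    have hsz : 0 ≤ sz A := Finset.sum_nonneg fun i _ => Finset.sum_nonneg fun j _ => abs_nonneg _
    apply ContinuousLinearMap.opNorm_le_bound _ hsz
    intro v
    refine (norm_le_sum _).trans ?_
    unfold sz
    rw [Finset.sum_mul]
    apply Finset.sum_le_sum
    intro i _
    rw [cj_apply, Finset.sum_mul]
    refine (Finset.abs_sum_le_sum_abs _ _).trans ?_
    apply Finset.sum_le_sum
    intro j _
    rw [abs_mul]
    apply mul_le_mul_of_nonneg_left _ (abs_nonneg _)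
    have := PiLp.norm_apply_le v j
    rwa [Real.norm_eq_abs] at this
  · intro A B
    unfold nrm
    rw [map_mul]
    exact norm_mul_le _ _
  · intro hm
    unfold nrm
    rw [map_one]
    haveI : Nonempty (Fin m) := ⟨⟨0, hm⟩⟩
    haveI : Nontrivial (EuclideanSpace ℝ (Fin m)) :=
      ⟨⟨EuclideanSpace.single ⟨0, hm⟩ 1, 0, by
        intro h
        have := congrArg (fun w : EuclideanSpace ℝ (Fin m) => w ⟨0, hm⟩) h
        simp at this⟩⟩
    exact ContinuousLinearMap.norm_id

theorem nrm : NrmStmt := nrm_stmt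

end Pool.Agent.QSX.H80
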